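import Pool.Agent.H442R2.BX.Asm

/-!
Boundedly many exceptional residues at the level of distribution `14/27`.

A Bessel inequality over the residues for the discrepancies, along rough moduli up to `N^θ`, of an
arbitrary bounded function on the primes (in particular of every subset of the primes); the
resulting bound for the number of exceptional residues; and the case of the primes themselves with
all prime moduli up to `N^θ`.  Every `θ < 14/27`.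
-/

namespace Pool.Agent.Results.MP_00e23e_nt.BoundedExceptions

open Finset

/-- `S(f; N, d, a) - S(f; N)/φ(d)`, where `S(f; N)` is the sum of `f` over the primes `p ≤ N` and
`S(f; N, d, a)` the sum over the primes `p ≤ N` with `p ≡ a (mod d)`. -/
noncomputable def disc (f : ℕ → ℝ) (N : ℕ) (a : ℤ) (d : ℕ) : ℝ :=
  (∑ p ∈ (Icc 1 N).filter (fun p : ℕ => p.Prime ∧ (p : ℤ) ≡ a [ZMOD d]), f p) -
    (∑ p ∈ (Icc 1 N).filter Nat.Prime, f p) / (Nat.totient d : ℝ)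

open Classical in
/-- the moduli `1 < d ≤ N^θ`, coprime to `a`, all of whose prime factors exceed `N^ε` -/
noncomputable def mods (N : ℕ) (θ ε : ℝ) (a : ℤ) : Finset ℕ :=
  (Icc 1 ⌊(N : ℝ) ^ θ⌋₊).filter (fun d : ℕ =>
    1 < d ∧ (∀ p : ℕ, p.Prime → p ∣ d → (N : ℝ) ^ ε < (p : ℝ)) ∧ Int.gcd a d = 1)

theorem mem_mods {N : ℕ} {θ ε : ℝ} {a : ℤ} {d : ℕ} : d ∈ mods N θ ε a ↔
    d ∈ Icc 1 ⌊(N : ℝ) ^ θ⌋₊ ∧ 1 < d ∧ (∀ p : ℕ, p.Prime → p ∣ d → (N : ℝ) ^ ε < (p : ℝ)) ∧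
      Int.gcd a d = 1 := by
  simp only [mods, Finset.mem_filter]

theorem result :
    (∀ θ ε : ℝ, θ < 14 / 27 → 0 < ε → ∃ (η C : ℝ), 0 < η ∧ 0 < C ∧
      ∀ N : ℕ, 2 ≤ N → ∀ f : ℕ → ℝ, (∀ p, |f p| ≤ 1) →
      ∀ A : Finset ℤ, (∀ a ∈ A, |(a : ℝ)| ≤ N) →
      ∑ a ∈ A, (∑ d ∈ mods N θ ε a, |disc f N a d|) ^ 2 ≤
        C * (N / Real.log N) ^ 2 * (1 + A.card * (N : ℝ) ^ (-η))) ∧
    (∀ θ ε : ℝ, θ < 14 / 27 → 0 < ε → ∃ (η C : ℝ), 0 < η ∧ 0 < C ∧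
      ∀ N : ℕ, 2 ≤ N → ∀ f : ℕ → ℝ, (∀ p, |f p| ≤ 1) →
      ∀ κ : ℝ, (N : ℝ) ^ (-η) ≤ κ → κ ≤ 1 →
      (((Icc (-(N : ℤ)) N).filter (fun a : ℤ => κ * (N / Real.log N) <
        ∑ d ∈ mods N θ ε a, |disc f N a d|)).card : ℝ) ≤ C / κ ^ 2) ∧
    (∀ θ κ : ℝ, θ < 14 / 27 → 0 < κ → ∃ C : ℝ, ∀ N : ℕ, 2 ≤ N →
      (((Icc (-(N : ℤ)) N).filter (fun a : ℤ => κ * (N / Real.log N) <
        ∑ q ∈ (Icc 1 ⌊(N : ℝ) ^ θ⌋₊).filter (fun q : ℕ => q.Prime ∧ ¬ (q : ℤ) ∣ a),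
          |(((Icc 1 N).filter (fun p : ℕ => p.Prime ∧ (p : ℤ) ≡ a [ZMOD q])).card : ℝ) -
            (((Icc 1 N).filter Nat.Prime).card : ℝ) / ((q : ℝ) - 1)|)).card : ℝ) ≤ C) := by
  have hmods : ∀ (N : ℕ) (θ ε : ℝ) (a : ℤ), mods N θ ε a =
      (Pool.Agent.H442R2.BX.roughs ((N : ℝ) ^ ε) ⌊(N : ℝ) ^ θ⌋₊).filter
        (fun d : ℕ => Int.gcd a d = 1) := by
    intro N θ ε a
    ext d
    constructor
    · intro h
      have h1 := mem_mods.1 h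
      refine Finset.mem_filter.2 ⟨?_, h1.2.2.2⟩
      unfold Pool.Agent.H442R2.BX.roughs
      exact (@Finset.mem_filter _ _ (Classical.decPred _) _ _).2 ⟨h1.1, h1.2.1, h1.2.2.1⟩
    · intro h
      have h1 := Finset.mem_filter.1 h
      have h2 : d ∈ Icc 1 ⌊(N : ℝ) ^ θ⌋₊ ∧ Pool.Agent.H442R2.BX.Rough ((N : ℝ) ^ ε) d := by
        have h3 := h1.1
        unfold Pool.Agent.H442R2.BX.roughs at h3
        exact (@Finset.mem_filter _ _ (Classical.decPred _) _ _).1 h3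
      exact mem_mods.2 ⟨h2.1, h2.2.1, h2.2.2, h1.2⟩
  refine ⟨?_, ?_, ?_⟩
  · intro θ ε hθ hε
    obtain ⟨η, C, hη, hC, h⟩ := Pool.Agent.H442R2.BX.FI_thm θ ε hθ hε
    refine ⟨η, C, hη, hC, ?_⟩
    intro N hN f hf A hA
    refine h N hN f hf A hA (fun a => mods N θ ε a) ?_
    intro a _ d hd
    have hd := mem_mods.1 hd
    rw [Finset.mem_Icc] at hd
    exact ⟨(Nat.cast_le.2 hd.1.2).trans (Nat.floor_le (by positivity)), hd.2.1, hd.2.2.1⟩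
  · intro θ ε hθ hε
    obtain ⟨η, C, hη, hC, h⟩ := Pool.Agent.H442R2.BX.FC_thm θ ε hθ hε
    refine ⟨η, C, hη, hC, ?_⟩
    intro N hN f hf κ hκ hκ1
    simp only [hmods]
    exact h N hN f hf κ hκ hκ1
  · intro θ κ hθ hκ
    obtain ⟨C, h⟩ := Pool.Agent.H442R2.BX.FP_thm θ κ hθ hκ
    refine ⟨C, ?_⟩
    intro N hN
    have h1 := h N hN
    have h2 : ∀ a : ℤ,
        ∑ q ∈ (Icc 1 ⌊(N : ℝ) ^ θ⌋₊).filter (fun q : ℕ => q.Prime ∧ ¬ (q : ℤ) ∣ a),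
          |(((Icc 1 N).filter (fun p : ℕ => p.Prime ∧ (p : ℤ) ≡ a [ZMOD q])).card : ℝ) -
            (((Icc 1 N).filter Nat.Prime).card : ℝ) / ((q : ℝ) - 1)| =
        ∑ q ∈ (Icc 1 ⌊(N : ℝ) ^ θ⌋₊).filter (fun q : ℕ => q.Prime ∧ ¬ (q : ℤ) ∣ a),
          |Pool.Agent.H442R2.BX.Df (fun _ => 1) N a q| := by
      intro a
      refine Finset.sum_congr rfl fun q hq => ?_
      have hp : q.Prime := (Finset.mem_filter.1 hq).2.1
      unfold Pool.Agent.H442R2.BX.Df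
      rw [Nat.totient_prime hp, Nat.cast_sub hp.one_le]
      simp
    simp only [h2]
    exact h1

end Pool.Agent.Results.MP_00e23e_nt.BoundedExceptions
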