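import Mathlib
import Pool.Agent.H262R4.FR.AllB

/-!
The Brun-Titchmarsh theorem for a fixed residue class and almost all moduli up to `x ^ (1 - δ)`, with the
constant `15 / 4`.
-/

namespace Pool.Agent.Results.MP_00e23e_nt.BrunTitchmarshOnAverage
open Finset

theorem result (a : ℤ) (ha : a ≠ 0) (ε : ℝ) (hε : 0 < ε) (δ : ℝ) (hδ : 0 < δ) :
    ∃ x0 : ℕ, ∀ x : ℕ, x0 ≤ x → ∀ Q : ℕ, (x : ℝ) ^ δ ≤ Q → (Q : ℝ) ≤ (x : ℝ) ^ (1 - δ) →
      (((Ioc Q (2 * Q)).filter (fun q : ℕ => IsCoprime a (q : ℤ) ∧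
        (15 / 4 + ε) * ((x : ℝ) / ((Nat.totient q : ℝ) * Real.log x)) <
          (((Icc 1 x).filter (fun p : ℕ => p.Prime ∧ (p : ℤ) ≡ a [ZMOD q])).card : ℝ))).card : ℝ) ≤
        ε * Q := by
  obtain ⟨x0, h⟩ := Pool.Agent.H262R4.FR.f_BT a ha ε hε δ hδ
  refine ⟨x0, fun x hx Q hQ1 hQ2 => ?_⟩
  have h1 := h x hx Q hQ1 hQ2
  refine le_trans (le_of_eq ?_) h1
  congr 2
  refine Finset.filter_congr fun q _ => ?_
  rw [Int.isCoprime_iff_gcd_eq_one]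
  refine and_congr_right fun _ => ?_
  have e2 : (Icc 1 x).filter (fun p : ℕ => p.Prime ∧ (p : ℤ) ≡ a [ZMOD q]) =
      (Icc 1 x).filter (fun p : ℕ => p.Prime ∧ (q : ℤ) ∣ (p : ℤ) - a) :=
    Finset.filter_congr fun n _ => by
      rw [Int.modEq_comm, Int.modEq_iff_dvd]
  rw [e2]
  rfl

end Pool.Agent.Results.MP_00e23e_nt.BrunTitchmarshOnAverage
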