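import Pool.Agent.H442R2.EHI.Core3
import Pool.Agent.H442R2.EHI.Lower
import Pool.Agent.H442R2.EHI.FinalOf

/-!
# The Elliott-Halberstam bound at level `1 - ε` for almost all residues in short intervals
-/

namespace Pool.Agent.Results.MP_00e23e_nt.ShortIntervalResidues

open Finset

/-- `π(x; d, a)`: the number of primes `p ≤ x` with `p ≡ a (mod d)`. -/
def primeCount (x d a : ℕ) : ℕ := ((Icc 1 x).filter (fun p => p.Prime ∧ p ≡ a [MOD d])).card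

/-- `E(x; d, a) = π(x; d, a) - li(x) / φ(d)`, where `li(x) = ∫_2^x dt / log t`. -/
noncomputable def E (x d a : ℕ) : ℝ :=
  (primeCount x d a : ℝ) - (∫ t in (2 : ℝ)..x, 1 / Real.log t) / (Nat.totient d : ℝ)

/-- For every `ε > 0` and every `U` there are `B`, `C` such that for all `x ≥ 3` and all intervals
`(a0, a0 + A]` inside `[1, x]`:
(1) if `A ≥ x^(1/3) (log x)^B` then
`∑_{a0 < a ≤ a0 + A} ∑_{d ≤ x^(1-ε), (a,d)=1} |E(x; d, a)| ≤ C A x / (log x)^U`;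
(2) if `x^(1/2) ≤ D ≤ x^(1-ε)` and only `A ≥ (x/D) (log x)^B` then
`∑_{a0 < a ≤ a0 + A} ∑_{D < d ≤ 2D, (a,d)=1} |E(x; d, a)| ≤ C A x / (log x)^U`. -/
theorem result (ε : ℝ) (hε : 0 < ε) (U : ℕ) : ∃ (B : ℕ) (C : ℝ), ∀ x : ℕ, 3 ≤ x →
    ∀ A a0 : ℕ, a0 + A ≤ x →
    ((x : ℝ) ^ (1 / 3 : ℝ) * Real.log x ^ B ≤ A →
      ∑ a ∈ Ioc a0 (a0 + A), ∑ d ∈ (Icc 1 ⌊(x : ℝ) ^ (1 - ε)⌋₊).filter (fun d => a.Coprime d),
        |E x d a| ≤ C * (A * x / Real.log x ^ U)) ∧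
    (∀ D : ℕ, (x : ℝ) ^ (1 / 2 : ℝ) ≤ D → (D : ℝ) ≤ (x : ℝ) ^ (1 - ε) →
      x * Real.log x ^ B ≤ (A : ℝ) * D →
      ∑ a ∈ Ioc a0 (a0 + A), ∑ d ∈ (Ioc D (2 * D)).filter (fun d => a.Coprime d),
        |E x d a| ≤ C * (A * x / Real.log x ^ U)) :=
  Pool.Agent.H442R2.EHI.FinalOf.final_of ε hε
    (fun U => Pool.Agent.H442R2.EHI.core ε hε U) (fun U => Pool.Agent.H442R2.EHI.lower U) U

end Pool.Agent.Results.MP_00e23e_nt.ShortIntervalResidues
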