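import Pool.Agent.H601R2.SqUp
import Pool.Agent.H601R2.SqLow

/-!
The sum over squarefree moduli of the maximal error: the bound `x / (log x)^U` for all squarefree
`d ≤ x` outside few exceptional classes, and an unconditional lower bound with all classes.
-/

set_option autoImplicit false

namespace Pool.Agent.Results.MP_00e23e_nt.SquarefreeBothSides

open Finset Filter

/-- `π(x; d, l)`: the number of primes `p ≤ x` in the class `l` modulo `d` -/
noncomputable def primesAP (x : ℝ) (d : ℕ) (l : ZMod d) : ℕ :=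
  ((Icc 1 ⌊x⌋₊).filter (fun p : ℕ => p.Prime ∧ (p : ZMod d) = l)).card

/-- `li(x) = ∫_2^x dt / log t` -/
noncomputable def li (x : ℝ) : ℝ := ∫ t in (2 : ℝ)..x, 1 / Real.log t

/-- `E(x; d, l) = π(x; d, l) - li(x) / φ(d)` -/
noncomputable def E (x : ℝ) (d : ℕ) (l : ZMod d) : ℝ :=
  (primesAP x d l : ℝ) - li x / (Nat.totient d : ℝ)

/-- the maximum of `|E(x; d, l)|` over all reduced classes `l` modulo `d` -/
noncomputable def EMax (x : ℝ) (d : ℕ) : ℝ := ⨆ l : (ZMod d)ˣ, |E x d (l : ZMod d)|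

/-- the maximum of `|E(x; d, l)|` over the reduced classes `l` outside `X` -/
noncomputable def EOff (x : ℝ) (d : ℕ) (X : Finset (ZMod d)ˣ) : ℝ :=
  ⨆ l : {l : (ZMod d)ˣ // l ∉ X}, |E x d (l : (ZMod d)ˣ)|

theorem li_eq (x : ℝ) : li x = Pool.Agent.Results.MP_188a10_nt.WeightedExceptional.li x := rfl

theorem primesAP_eq (x : ℝ) (d : ℕ) (l : ZMod d) :
    primesAP x d l = Pool.Agent.Results.MP_188a10_nt.WeightedExceptional.primesAP x d l := rfl

theorem primesAP_eq' (x : ℝ) (d : ℕ) (l : ZMod d) :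
    primesAP x d l = N34c950ba.primesInAPCount ⌊x⌋₊ d l := by
  unfold primesAP N34c950ba.primesInAPCount
  congr 1
  ext p
  simp only [mem_filter, mem_Icc, mem_range]
  constructor
  · rintro ⟨⟨h1, h2⟩, h3, h4⟩; exact ⟨by omega, h3, h4⟩
  · rintro ⟨h1, h3, h4⟩; exact ⟨⟨h3.one_lt.le, by omega⟩, h3, h4⟩

theorem mu_sq_le (d : ℕ) : ((ArithmeticFunction.moebius d : ℤ) : ℝ) ^ 2 ≤ 1 := by
  have h := ArithmeticFunction.abs_moebius_le_one (n := d)
  have h2 : |((ArithmeticFunction.moebius d : ℤ) : ℝ)| ≤ 1 := by exact_mod_cast h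
  rw [← sq_abs]
  exact pow_le_one₀ (abs_nonneg _) h2

theorem mu_sq (d : ℕ) : ((ArithmeticFunction.moebius d : ℤ) : ℝ) ^ 2 = if Squarefree d then 1 else 0 := by
  split_ifs with h
  · have := ArithmeticFunction.moebius_sq_eq_one_of_squarefree h
    exact_mod_cast this
  · rw [ArithmeticFunction.moebius_eq_zero_of_not_squarefree h]
    norm_num

theorem EMax_nonneg (x : ℝ) (d : ℕ) : 0 ≤ EMax x d := Real.iSup_nonneg fun _ => abs_nonneg _

theorem EOff_nonneg (x : ℝ) (d : ℕ) (X : Finset (ZMod d)ˣ) : 0 ≤ EOff x d X :=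
  Real.iSup_nonneg fun _ => abs_nonneg _

/-- **The level of distribution sum over squarefree moduli, from both sides.** -/
theorem result :
    (∀ U : ℕ, ∃ (B : ℕ) (C : ℝ), ∀ x : ℝ, 3 ≤ x →
      (∃ X : (d : ℕ) → Finset (ZMod d)ˣ,
        (∀ d, 1 ≤ d → ((X d).card : ℝ) ≤ (d : ℝ) ^ 2 * Real.log x ^ B / x) ∧
        ∑ d ∈ Icc 1 ⌊x⌋₊, ((ArithmeticFunction.moebius d : ℤ) : ℝ) ^ 2 * EOff x d (X d) ≤
          C * (x / Real.log x ^ U)) ∧
      (∀ A : ℝ, 1 ≤ A → ∀ D : ℕ, (D : ℝ) ≤ x / Real.log x ^ B →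
        (D : ℝ) ^ 2 ≤ A * x / Real.log x ^ B →
        ∀ L : (d : ℕ) → Finset (ZMod d)ˣ, (∀ d, ((L d).card : ℝ) ≤ A) →
        ∑ d ∈ Icc 1 D, ((ArithmeticFunction.moebius d : ℤ) : ℝ) ^ 2 *
          ∑ l ∈ L d, |E x d (l : (ZMod d)ˣ)| ≤ C * (A * x / Real.log x ^ U))) ∧
    (∀ ε : ℝ, 0 < ε → ∀ᶠ x : ℝ in atTop, ∀ Q : ℝ, x ^ (1 / 2 + ε) ≤ Q → Q ≤ x →
      x ^ (-ε) * Real.sqrt (x * Q) ≤
        ∑ d ∈ Icc 1 ⌊Q⌋₊, ((ArithmeticFunction.moebius d : ℤ) : ℝ) ^ 2 * EMax x d) := by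
  constructor
  · intro U
    obtain ⟨B, C, h⟩ := Pool.Agent.H601R2.SqUp.upper U
    refine ⟨B, C, fun x hx => ?_⟩
    obtain ⟨⟨X, hX, G, hG0, hG, hsum⟩, hfam⟩ := h x hx
    constructor
    · refine ⟨X, hX, le_trans ?_ hsum⟩
      apply sum_le_sum
      intro d hd
      rw [mem_Icc] at hd
      have h1 : EOff x d (X d) ≤ G d := by
        unfold EOff
        apply Real.iSup_le _ (hG0 d)
        rintro ⟨l, hl⟩
        exact hG d hd.1 l hl
      calc ((ArithmeticFunction.moebius d : ℤ) : ℝ) ^ 2 * EOff x d (X d) ≤ 1 * EOff x d (X d) :=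
            mul_le_mul_of_nonneg_right (mu_sq_le d) (EOff_nonneg _ _ _)
        _ = EOff x d (X d) := one_mul _
        _ ≤ G d := h1
    · intro A hA D hD1 hD2 L hL
      refine le_trans ?_ (hfam A hA D hD1 hD2 L hL)
      apply sum_le_sum
      intro d _
      have h1 : 0 ≤ ∑ l ∈ L d, |E x d (l : (ZMod d)ˣ)| := sum_nonneg fun _ _ => abs_nonneg _
      calc ((ArithmeticFunction.moebius d : ℤ) : ℝ) ^ 2 * ∑ l ∈ L d, |E x d (l : (ZMod d)ˣ)|
          ≤ 1 * ∑ l ∈ L d, |E x d (l : (ZMod d)ˣ)| := mul_le_mul_of_nonneg_right (mu_sq_le d) h1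
        _ = ∑ l ∈ L d, |E x d (l : (ZMod d)ˣ)| := one_mul _
        _ ≤ _ := le_rfl
  · intro ε hε
    filter_upwards [Pool.Agent.H601R2.SqLow.lower ε hε] with x hx Q hQ1 hQx
    have h1 := hx Q hQ1 hQx (fun d => li x / (Nat.totient d : ℝ)) (EMax x) (EMax_nonneg x)
      (by
        intro d hd b
        have hNe : NeZero d := ⟨by omega⟩
        rw [← primesAP_eq']
        unfold EMax
        exact le_ciSup (f := fun l : (ZMod d)ˣ => |E x d (l : ZMod d)|) (Set.finite_range _).bddAbove b)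
    refine h1.trans (le_of_eq ?_)
    rw [sum_filter]
    apply sum_congr rfl
    intro d _
    rw [mu_sq]
    split_ifs <;> simp

end Pool.Agent.Results.MP_00e23e_nt.SquarefreeBothSides
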